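import Mathlib
import Pool.Agent.Helper472.Lat_Chars

/-!
# Multipliers of `L^p` of a compact abelian group: basic facts
-/

set_option autoImplicit false
set_option linter.all false

open MeasureTheory Filter Topology
open scoped ENNReal

namespace Pool.Agent.H208R3.LP

universe u

variable {G : Type u} [CommGroup G] [TopologicalSpace G] [IsTopologicalGroup G] [CompactSpace G]
  [T2Space G] [MeasurableSpace G] [BorelSpace G]

/-- translation by `a` on `L^p(G)`: `(τ_a f)(x) = f (a x)` -/
noncomputable def trans (μ : Measure G) [μ.IsHaarMeasure] (p : ℝ≥0∞) [Fact (1 ≤ p)] (a : G) :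
    Lp ℂ p μ →L[ℂ] Lp ℂ p μ :=
  (Lp.compMeasurePreservingₗᵢ ℂ (fun x => a * x)
    (measurePreserving_mul_left μ a)).toContinuousLinearMap

/-- the algebra of all bounded operators on `L^p(G)` which commute with all translations -/
noncomputable def multAlg (μ : Measure G) [μ.IsHaarMeasure] (p : ℝ≥0∞) [Fact (1 ≤ p)] :
    Subalgebra ℂ (Lp ℂ p μ →L[ℂ] Lp ℂ p μ) :=
  Subalgebra.centralizer ℂ (Set.range (trans μ p))

variable (μ : Measure G) [μ.IsHaarMeasure] [μ.Regular] (p : ℝ≥0∞) [Fact (1 ≤ p)]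

omit [T2Space G] [μ.Regular] in
theorem norm_trans (a : G) (f : Lp ℂ p μ) : ‖trans μ p a f‖ = ‖f‖ :=
  LinearIsometry.norm_map _ f

omit [T2Space G] in
theorem continuous_trans (hp : p ≠ ⊤) (f : Lp ℂ p μ) : Continuous fun a => trans μ p a f := by
  let g : C(G × G, G) := ⟨fun q => q.1 * q.2, by fun_prop⟩
  exact Continuous.compMeasurePreservingLp (f := fun _ : G => f) (g := fun a => g.curry a)
    continuous_const g.curry.continuous (fun a => measurePreserving_mul_left μ a) hp

omit [T2Space G] [μ.Regular] in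
theorem trans_mul (a b : G) (f : Lp ℂ p μ) : trans μ p a (trans μ p b f) = trans μ p (a * b) f := by
  unfold trans
  show Lp.compMeasurePreserving (fun x => a * x) _ (Lp.compMeasurePreserving (fun x => b * x) _ f)
    = Lp.compMeasurePreserving (fun x => a * b * x) _ f
  rw [← Lp.compMeasurePreserving_comp_apply]
  congr 2
  funext x
  simp only [Function.comp]
  rw [← mul_assoc, mul_comm a b]

omit [T2Space G] [μ.Regular] in
theorem trans_one (f : Lp ℂ p μ) : trans μ p 1 f = f := by
  unfold trans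
  have h : (fun x : G => 1 * x) = id := by funext x; simp
  show Lp.compMeasurePreserving (fun x => (1 : G) * x) _ f = f
  have h2 := MeasureTheory.Lp.compMeasurePreserving_id_apply (μb := μ) f
  simp only [one_mul]
  exact h2

omit [T2Space G] in
theorem integrable_smul_trans (hp : p ≠ ⊤) (φ : C(G, ℂ)) (f : Lp ℂ p μ) :
    Integrable (fun a => φ a • trans μ p a f) μ :=
  (φ.continuous.smul (continuous_trans μ p hp f)).integrable_of_hasCompactSupport
    (HasCompactSupport.of_compactSpace _)

omit [T2Space G] in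
theorem norm_int_le (hp : p ≠ ⊤) (φ : C(G, ℂ)) (f : Lp ℂ p μ) :
    ‖∫ a, φ a • trans μ p a f ∂μ‖ ≤ (∫ a, ‖φ a‖ ∂μ) * ‖f‖ := by
  refine (norm_integral_le_integral_norm _).trans (le_of_eq ?_)
  rw [← integral_mul_const]
  congr 1
  funext a
  rw [norm_smul, norm_trans]

/-- convolution type operator `∫ φ(a) τ_a da` -/
noncomputable def opK (hp : p ≠ ⊤) (φ : C(G, ℂ)) : Lp ℂ p μ →L[ℂ] Lp ℂ p μ :=
  LinearMap.mkContinuous
    { toFun := fun f => ∫ a, φ a • trans μ p a f ∂μ
      map_add' := by
        intro f g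
        rw [← integral_add (integrable_smul_trans μ p hp φ f) (integrable_smul_trans μ p hp φ g)]
        simp only [map_add, smul_add]
      map_smul' := by
        intro c f
        simp only [map_smul, RingHom.id_apply]
        rw [← integral_smul]
        congr 1
        funext x
        rw [smul_comm] }
    (∫ a, ‖φ a‖ ∂μ) (norm_int_le μ p hp φ)

omit [T2Space G] in
theorem opK_apply (hp : p ≠ ⊤) (φ : C(G, ℂ)) (f : Lp ℂ p μ) :
    opK μ p hp φ f = ∫ a, φ a • trans μ p a f ∂μ := rfl

omit [T2Space G] in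
theorem norm_opK_le (hp : p ≠ ⊤) (φ : C(G, ℂ)) : ‖opK μ p hp φ‖ ≤ ∫ a, ‖φ a‖ ∂μ :=
  LinearMap.mkContinuous_norm_le _ (integral_nonneg fun _ => norm_nonneg _) _

omit [T2Space G] in
theorem opK_add (hp : p ≠ ⊤) (φ ψ : C(G, ℂ)) :
    opK μ p hp (φ + ψ) = opK μ p hp φ + opK μ p hp ψ := by
  ext1 f
  rw [ContinuousLinearMap.add_apply, opK_apply, opK_apply, opK_apply,
    ← integral_add (integrable_smul_trans μ p hp φ f) (integrable_smul_trans μ p hp ψ f)]
  simp only [ContinuousMap.add_apply, add_smul]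

omit [T2Space G] in
theorem opK_smul (hp : p ≠ ⊤) (c : ℂ) (φ : C(G, ℂ)) :
    opK μ p hp (c • φ) = c • opK μ p hp φ := by
  ext1 f
  rw [ContinuousLinearMap.smul_apply, opK_apply, opK_apply, ← integral_smul]
  simp only [ContinuousMap.smul_apply, smul_assoc]

omit [T2Space G] [μ.Regular] in
theorem mem_multAlg {T : Lp ℂ p μ →L[ℂ] Lp ℂ p μ} :
    T ∈ multAlg μ p ↔ ∀ a f, T (trans μ p a f) = trans μ p a (T f) := by
  unfold multAlg
  rw [Subalgebra.mem_centralizer_iff]
  constructor
  · intro h a f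
    exact (congrArg (fun L => L f) (h _ ⟨a, rfl⟩)).symm
  · rintro h _ ⟨a, rfl⟩
    ext1 f
    exact (h a f).symm

omit [T2Space G] in
/-- multipliers commute with `opK φ` -/
theorem comm_opK (hp : p ≠ ⊤) {T : Lp ℂ p μ →L[ℂ] Lp ℂ p μ} (hT : T ∈ multAlg μ p)
    (φ : C(G, ℂ)) (f : Lp ℂ p μ) : T (opK μ p hp φ f) = opK μ p hp φ (T f) := by
  rw [opK_apply, opK_apply, ← ContinuousLinearMap.integral_comp_comm T
    (integrable_smul_trans μ p hp φ f)]
  congr 1
  funext a
  rw [map_smul, (mem_multAlg μ p).1 hT]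

omit [T2Space G] [μ.Regular] in
theorem trans_mem (a : G) : trans μ p a ∈ multAlg μ p := by
  rw [mem_multAlg]
  intro b f
  rw [trans_mul, trans_mul, mul_comm]

omit [T2Space G] in
theorem opK_mem (hp : p ≠ ⊤) (φ : C(G, ℂ)) : opK μ p hp φ ∈ multAlg μ p := by
  rw [mem_multAlg]
  intro a f
  exact (comm_opK μ p hp (trans_mem μ p a) φ f).symm

/-! ### characters -/

/-- a continuous character as a continuous function -/
noncomputable def chi (χ : ContinuousMonoidHom G Circle) : C(G, ℂ) :=
  ⟨fun x => (χ x : ℂ), by fun_prop⟩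

omit [CompactSpace G] [T2Space G] [MeasurableSpace G] [BorelSpace G] [IsTopologicalGroup G] in
@[simp] theorem chi_apply (χ : ContinuousMonoidHom G Circle) (x : G) : chi χ x = (χ x : ℂ) := rfl

omit [T2Space G] [μ.Regular] in
theorem trans_toLp (a : G) (f : C(G, ℂ)) :
    trans μ p a (ContinuousMap.toLp p μ ℂ f) =
      ContinuousMap.toLp p μ ℂ (f.comp ⟨fun x => a * x, by fun_prop⟩) := by
  unfold trans
  show Lp.compMeasurePreserving (fun x => a * x) _ (ContinuousMap.toLp p μ ℂ f) = _
  apply Lp.ext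
  refine (Lp.coeFn_compMeasurePreserving _ (measurePreserving_mul_left μ a)).trans ?_
  refine EventuallyEq.trans ?_ (ContinuousMap.coeFn_toLp μ _).symm
  have h := (measurePreserving_mul_left μ a).quasiMeasurePreserving.ae_eq_comp
    (ContinuousMap.coeFn_toLp (p := p) (𝕜 := ℂ) μ f)
  exact h

end Pool.Agent.H208R3.LP
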