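import Mathlib
import Pool.Agent.H208R3.LP.Basic

/-!
# Multipliers act diagonally on characters; approximate identities of trigonometric kernels
-/

set_option autoImplicit false
set_option linter.all false

open MeasureTheory Filter Topology
open scoped ENNReal ComplexConjugate

namespace Pool.Agent.H208R3.LP

universe u

variable {G : Type u} [CommGroup G] [TopologicalSpace G] [IsTopologicalGroup G] [CompactSpace G]
  [T2Space G] [MeasurableSpace G] [BorelSpace G]
variable (μ : Measure G) [μ.IsHaarMeasure] [μ.Regular] (p : ℝ≥0∞) [Fact (1 ≤ p)]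

/-- the class of a character in `L^p` -/
noncomputable def ev (χ : ContinuousMonoidHom G Circle) : Lp ℂ p μ :=
  ContinuousMap.toLp p μ ℂ (chi χ)

/-- the kernel whose operator is the projection on the character `χ` (up to the total mass) -/
noncomputable def PK (hp : p ≠ ⊤) (χ : ContinuousMonoidHom G Circle) :
    Lp ℂ p μ →L[ℂ] Lp ℂ p μ := opK μ p hp (star (chi χ))

theorem opK_toLp (hp : p ≠ ⊤) (φ f : C(G, ℂ)) :
    opK μ p hp φ (ContinuousMap.toLp p μ ℂ f) =
      ContinuousMap.toLp p μ ℂ (∫ a, φ a • f.comp (⟨fun x => a * x, by fun_prop⟩ : C(G, G)) ∂μ) := by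
  have hc : Continuous fun a : G => φ a • f.comp (⟨fun x => a * x, by fun_prop⟩ : C(G, G)) := by
    let F : C(G × G, ℂ) := ⟨fun q => f (q.1 * q.2), by fun_prop⟩
    have h1 : Continuous fun a => F.curry a := F.curry.continuous
    have h2 : (fun a : G => φ a • f.comp (⟨fun x => a * x, by fun_prop⟩ : C(G, G))) =
        fun a => φ a • F.curry a := by
      funext a
      rfl
    rw [h2]
    exact φ.continuous.smul h1
  rw [opK_apply, ← ContinuousLinearMap.integral_comp_comm _
    (hc.integrable_of_hasCompactSupport (HasCompactSupport.of_compactSpace _))]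
  refine integral_congr_ae (Eventually.of_forall fun a => ?_)
  show φ a • trans μ p a (ContinuousMap.toLp p μ ℂ f) = ContinuousMap.toLp p μ ℂ
    (φ a • f.comp (⟨fun x => a * x, by fun_prop⟩ : C(G, G)))
  rw [map_smul, trans_toLp]

theorem int_apply (χ : ContinuousMonoidHom G Circle) (f : C(G, ℂ)) :
    (∫ a, (star (chi χ)) a • f.comp (⟨fun x => a * x, by fun_prop⟩ : C(G, G)) ∂μ) =
      (∫ b, (star (chi χ)) b * f b ∂μ) • chi χ := by
  have hc : Continuous fun a : G =>
      (star (chi χ)) a • f.comp (⟨fun x => a * x, by fun_prop⟩ : C(G, G)) := by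
    let F : C(G × G, ℂ) := ⟨fun q => f (q.1 * q.2), by fun_prop⟩
    have h1 : Continuous fun a => F.curry a := F.curry.continuous
    have h2 : (fun a : G => (star (chi χ)) a • f.comp (⟨fun x => a * x, by fun_prop⟩ : C(G, G))) =
        fun a => (star (chi χ)) a • F.curry a := by
      funext a
      rfl
    rw [h2]
    exact (star (chi χ)).continuous.smul h1
  ext x
  rw [ContinuousMap.integral_apply
    (hc.integrable_of_hasCompactSupport (HasCompactSupport.of_compactSpace _))]
  simp only [ContinuousMap.smul_apply, ContinuousMap.comp_apply, ContinuousMap.coe_mk,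
    ContinuousMap.star_apply, chi_apply, smul_eq_mul]
  have h := integral_mul_right_eq_self (μ := μ)
    (fun b => star ((χ b : Circle) : ℂ) * f b * (χ x : ℂ)) x
  rw [← integral_mul_const, ← h]
  refine integral_congr_ae (Eventually.of_forall fun a => ?_)
  have h1 : star ((χ x : Circle) : ℂ) * (χ x : ℂ) = 1 := by
    have := Complex.normSq_eq_conj_mul_self (z := ((χ x : Circle) : ℂ))
    rw [Complex.star_def, ← this, Circle.normSq_coe]
    norm_num
  have h2 : ((χ (a * x) : Circle) : ℂ) = (χ a : ℂ) * (χ x : ℂ) := by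
    rw [map_mul χ, Circle.coe_mul]
  show star ((χ a : Circle) : ℂ) * f (a * x) = star ((χ (a * x) : Circle) : ℂ) * f (a * x) * (χ x : ℂ)
  rw [h2, star_mul']
  linear_combination (-(star ((χ a : Circle) : ℂ)) * f (a * x)) * h1

theorem PK_toLp (hp : p ≠ ⊤) (χ : ContinuousMonoidHom G Circle) (f : C(G, ℂ)) :
    PK μ p hp χ (ContinuousMap.toLp p μ ℂ f) =
      (∫ b, (star (chi χ)) b * f b ∂μ) • ev μ p χ := by
  unfold PK ev
  rw [opK_toLp, int_apply, map_smul]

/-- the range of `PK χ` is spanned by the character -/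
theorem PK_mem (hp : p ≠ ⊤) (χ : ContinuousMonoidHom G Circle) (f : Lp ℂ p μ) :
    PK μ p hp χ f ∈ Submodule.span ℂ {ev μ p χ} := by
  have hcl : IsClosed ((Submodule.span ℂ {ev μ p χ} : Submodule ℂ (Lp ℂ p μ)) : Set (Lp ℂ p μ)) :=
    Submodule.closed_of_finiteDimensional _
  have hd : DenseRange (ContinuousMap.toLp p μ ℂ : C(G, ℂ) →L[ℂ] Lp ℂ p μ) :=
    ContinuousMap.toLp_denseRange ℂ μ ℂ hp
  have h : ∀ f : Lp ℂ p μ, f ∈ closure (Set.range (ContinuousMap.toLp p μ ℂ : C(G, ℂ) →L[ℂ] Lp ℂ p μ)) →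
      PK μ p hp χ f ∈ ((Submodule.span ℂ {ev μ p χ} : Submodule ℂ (Lp ℂ p μ)) : Set (Lp ℂ p μ)) := by
    intro f hf
    have hcl2 : IsClosed ((PK μ p hp χ) ⁻¹'
        ((Submodule.span ℂ {ev μ p χ} : Submodule ℂ (Lp ℂ p μ)) : Set (Lp ℂ p μ))) :=
      hcl.preimage (PK μ p hp χ).continuous
    refine (hcl2.closure_subset_iff.2 ?_) hf
    rintro _ ⟨g, rfl⟩
    rw [Set.mem_preimage, PK_toLp]
    exact Submodule.smul_mem _ _ (Submodule.mem_span_singleton_self _)
  exact h f (hd f)

/-- the total mass -/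
theorem mass_ne : (μ.real Set.univ : ℂ) ≠ 0 := by
  have h : μ.real Set.univ ≠ 0 := by
    rw [Measure.real, ENNReal.toReal_ne_zero]
    exact ⟨NeZero.ne _, measure_ne_top _ _⟩
  exact_mod_cast h

theorem PK_ev (hp : p ≠ ⊤) (χ : ContinuousMonoidHom G Circle) :
    PK μ p hp χ (ev μ p χ) = (μ.real Set.univ : ℂ) • ev μ p χ := by
  have h0 : ev μ p χ = ContinuousMap.toLp p μ ℂ (chi χ) := rfl
  conv_lhs => rw [h0]
  rw [PK_toLp]
  congr 1
  have h1 : ∀ b, (star (chi χ)) b * (chi χ) b = 1 := by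
    intro b
    rw [ContinuousMap.star_apply, chi_apply]
    have := Complex.normSq_eq_conj_mul_self (z := ((χ b : Circle) : ℂ))
    rw [Complex.star_def, ← this, Circle.normSq_coe]
    norm_num
  simp only [h1]
  rw [integral_const]
  simp

theorem ev_ne (χ : ContinuousMonoidHom G Circle) : ev μ p χ ≠ 0 := by
  intro h
  have h1 : (ev μ p χ : G → ℂ) =ᵐ[μ] chi χ := ContinuousMap.coeFn_toLp μ (chi χ)
  rw [h] at h1
  have h2 := (Lp.coeFn_zero ℂ p μ).symm.trans h1
  have h3 : ∀ᵐ x ∂μ, False := by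
    filter_upwards [h2] with x hx
    have : (χ x : ℂ) ≠ 0 := Circle.coe_ne_zero _
    exact this hx.symm
  have h4 : μ = 0 := by
    rw [ae_iff] at h3
    simpa using h3
  exact (NeZero.ne μ) h4

/-- the symbol of a multiplier -/
theorem exists_symbol (hp : p ≠ ⊤) {T : Lp ℂ p μ →L[ℂ] Lp ℂ p μ} (hT : T ∈ multAlg μ p)
    (χ : ContinuousMonoidHom G Circle) : ∃ t : ℂ, T * PK μ p hp χ = t • PK μ p hp χ := by
  have h1 : T (ev μ p χ) ∈ Submodule.span ℂ {ev μ p χ} := by
    have h2 : T (PK μ p hp χ (ev μ p χ)) = PK μ p hp χ (T (ev μ p χ)) := comm_opK μ p hp hT _ _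
    rw [PK_ev, map_smul] at h2
    have h3 := PK_mem μ p hp χ (T (ev μ p χ))
    rw [← h2] at h3
    exact (Submodule.smul_mem_iff _ (mass_ne μ)).1 h3
  obtain ⟨t, ht⟩ := Submodule.mem_span_singleton.1 h1
  refine ⟨t, ?_⟩
  ext1 f
  obtain ⟨c, hc⟩ := Submodule.mem_span_singleton.1 (PK_mem μ p hp χ f)
  show T (PK μ p hp χ f) = t • PK μ p hp χ f
  rw [← hc, map_smul, ← ht, smul_comm]

theorem PK_ne (hp : p ≠ ⊤) (χ : ContinuousMonoidHom G Circle) : PK μ p hp χ ≠ 0 := by
  intro h
  have h1 := PK_ev μ p hp χ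
  rw [h] at h1
  exact smul_ne_zero (mass_ne μ) (ev_ne μ p χ) h1.symm

end Pool.Agent.H208R3.LP
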