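import Mathlib
import Pool.Agent.H208R3.LP.Eig

/-!
# Trigonometric kernels form an approximate identity; every non-invertible multiplier is a
topological divisor of zero
-/

set_option autoImplicit false
set_option linter.all false

open MeasureTheory Filter Topology
open scoped ENNReal ComplexConjugate

namespace Pool.Agent.H208R3.LP

universe u

variable {G : Type u} [CommGroup G] [TopologicalSpace G] [IsTopologicalGroup G] [CompactSpace G]
  [T2Space G] [MeasurableSpace G] [BorelSpace G]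
variable (μ : Measure G) [μ.IsHaarMeasure] [μ.Regular] (p : ℝ≥0∞) [Fact (1 ≤ p)]

omit [MeasurableSpace G] [BorelSpace G] [T2Space G] [CompactSpace G] in
theorem chi_inv (χ : ContinuousMonoidHom G Circle) : chi χ⁻¹ = star (chi χ) := by
  ext x
  rw [ContinuousMap.star_apply, chi_apply, chi_apply, Complex.star_def]
  rw [← Circle.coe_inv_eq_conj]
  rfl

/-- the algebra of trigonometric polynomials -/
noncomputable def trigAlg (G : Type u) [CommGroup G] [TopologicalSpace G] [IsTopologicalGroup G] :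
    StarSubalgebra ℂ C(G, ℂ) where
  toSubalgebra := Algebra.adjoin ℂ (Set.range (chi (G := G)))
  star_mem' := by
    change Algebra.adjoin ℂ (Set.range (chi (G := G))) ≤
      star (Algebra.adjoin ℂ (Set.range (chi (G := G))))
    refine Algebra.adjoin_le ?_
    rintro - ⟨χ, rfl⟩
    exact Algebra.subset_adjoin ⟨χ⁻¹, chi_inv χ⟩

omit [MeasurableSpace G] [BorelSpace G] [T2Space G] [CompactSpace G] in
theorem trigAlg_coe : Subalgebra.toSubmodule (trigAlg G).toSubalgebra =
    Submodule.span ℂ (Set.range (chi (G := G))) := by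
  apply Algebra.adjoin_eq_span_of_subset
  refine Set.Subset.trans ?_ Submodule.subset_span
  intro x hx
  refine Submonoid.closure_induction (fun _ => id) ⟨1, ?_⟩ ?_ hx
  · ext1 z
    rfl
  · rintro - - - - ⟨m, rfl⟩ ⟨n, rfl⟩
    refine ⟨m * n, ?_⟩
    ext1 z
    rfl

omit [MeasurableSpace G] [BorelSpace G] in
theorem trigAlg_sep : (trigAlg G).SeparatesPoints := by
  intro x y hxy
  obtain ⟨χ, hχ⟩ := Pool.LatH472.chars (x * y⁻¹) (by
    intro h
    exact hxy (mul_inv_eq_one.1 h))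
  refine ⟨_, ⟨chi χ, Algebra.subset_adjoin ⟨χ, rfl⟩, rfl⟩, ?_⟩
  intro h
  apply hχ
  have h1 : χ x = χ y := Circle.ext h
  rw [map_mul, map_inv, h1, mul_inv_cancel]

omit [MeasurableSpace G] [BorelSpace G] in
theorem trig_dense (f : C(G, ℂ)) (ε : ℝ) (hε : 0 < ε) :
    ∃ φ ∈ Submodule.span ℂ (Set.range (chi (G := G))), ‖φ - f‖ < ε := by
  have h := ContinuousMap.starSubalgebra_topologicalClosure_eq_top_of_separatesPoints
    (trigAlg G) trigAlg_sep
  have h1 : f ∈ closure ((trigAlg G : StarSubalgebra ℂ C(G, ℂ)) : Set C(G, ℂ)) := by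
    rw [← StarSubalgebra.topologicalClosure_coe, h]
    exact Set.mem_univ _
  obtain ⟨φ, hφ, hd⟩ := Metric.mem_closure_iff.1 h1 ε hε
  refine ⟨φ, ?_, ?_⟩
  · rw [← trigAlg_coe]
    exact hφ
  · rw [← dist_eq_norm, dist_comm]
    exact hd

/-- trigonometric kernels approximate the identity strongly -/
theorem exists_kernel (hp : p ≠ ⊤) (f : Lp ℂ p μ) (ε : ℝ) (hε : 0 < ε) :
    ∃ φ ∈ Submodule.span ℂ (Set.range (chi (G := G))),
      ‖opK μ p hp φ‖ ≤ 2 ∧ ‖opK μ p hp φ f - f‖ < ε := by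
  have hc := continuous_trans μ p hp f
  have hV : {a : G | ‖trans μ p a f - f‖ < ε / 4} ∈ 𝓝 (1 : G) := by
    have h1 : Continuous fun a => ‖trans μ p a f - f‖ := (hc.sub continuous_const).norm
    apply (isOpen_lt h1 continuous_const).mem_nhds
    show ‖trans μ p 1 f - f‖ < ε / 4
    rw [trans_one, sub_self, norm_zero]
    positivity
  obtain ⟨V, hVs, hVo, hV1⟩ := mem_nhds_iff.1 hV
  obtain ⟨g, hg0, hg1, hg01⟩ := exists_continuous_zero_one_of_isClosed
    (s := Vᶜ) (t := {(1 : G)}) hVo.isClosed_compl isClosed_singleton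
    (by rw [Set.disjoint_singleton_right]; exact fun h => h hV1)
  have hgi : 0 < ∫ x, g x ∂μ := by
    apply g.continuous.integral_pos_of_hasCompactSupport_nonneg_nonzero
      (HasCompactSupport.of_compactSpace _) (fun x => (hg01 x).1) (x := 1)
    rw [hg1 (Set.mem_singleton 1)]
    simp
  set I := ∫ x, g x ∂μ with hI
  let gc : C(G, ℂ) := ⟨fun x => ((I⁻¹ * g x : ℝ) : ℂ), by fun_prop⟩
  have hgc : ∀ x, gc x = ((I⁻¹ * g x : ℝ) : ℂ) := fun x => rfl
  have hgn : ∀ x, ‖gc x‖ = I⁻¹ * g x := by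
    intro x
    rw [hgc, Complex.norm_real, Real.norm_of_nonneg]
    exact mul_nonneg (inv_nonneg.2 hgi.le) (hg01 x).1
  have hgint : ∫ x, ‖gc x‖ ∂μ = 1 := by
    simp only [hgn]
    rw [integral_const_mul]
    exact inv_mul_cancel₀ hgi.ne'
  have hgone : ∫ x, gc x ∂μ = 1 := by
    simp only [hgc]
    have e0 : ∫ x, ((I⁻¹ * g x : ℝ) : ℂ) ∂μ = ((∫ x, I⁻¹ * g x ∂μ : ℝ) : ℂ) :=
      integral_complex_ofReal
    rw [e0, integral_const_mul, ← hI, inv_mul_cancel₀ hgi.ne']
    simp
  have hgci : Integrable gc μ :=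
    gc.continuous.integrable_of_hasCompactSupport (HasCompactSupport.of_compactSpace _)
  have h1 : ‖opK μ p hp gc f - f‖ ≤ ε / 4 := by
    have e1 : opK μ p hp gc f - f = ∫ a, gc a • (trans μ p a f - f) ∂μ := by
      have e2 : f = ∫ a, gc a • f ∂μ := by
        rw [integral_smul_const, hgone, one_smul]
      have e4 : ∫ a, gc a • (trans μ p a f - f) ∂μ =
          ∫ a, gc a • trans μ p a f ∂μ - ∫ a, gc a • f ∂μ := by
        rw [← integral_sub (integrable_smul_trans μ p hp gc f) (hgci.smul_const f)]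
        simp only [smul_sub]
      rw [e4, ← e2, opK_apply]
    rw [e1]
    refine (norm_integral_le_integral_norm _).trans ?_
    have e3 : ∫ a, ‖gc a • (trans μ p a f - f)‖ ∂μ ≤ ∫ a, ‖gc a‖ * (ε / 4) ∂μ := by
      apply integral_mono_of_nonneg
      · exact Eventually.of_forall fun _ => norm_nonneg _
      · exact hgci.norm.mul_const _
      · refine Eventually.of_forall fun a => ?_
        simp only [norm_smul]
        by_cases ha : a ∈ V
        · exact mul_le_mul_of_nonneg_left (le_of_lt (hVs ha)) (norm_nonneg _)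
        · have : gc a = 0 := by
            rw [hgc, hg0 ha]
            simp
          rw [this]
          simp
    refine e3.trans ?_
    rw [integral_mul_const, hgint, one_mul]
  set m := μ.real Set.univ with hm
  have hm0 : 0 ≤ m := measureReal_nonneg
  obtain ⟨η, hη, hη1, hη2⟩ : ∃ η : ℝ, 0 < η ∧ η * m ≤ 1 ∧ η * m * ‖f‖ ≤ ε / 4 := by
    refine ⟨min (1 / (m + 1)) (ε / 4 / ((m + 1) * (‖f‖ + 1))), by positivity, ?_, ?_⟩
    · calc min (1 / (m + 1)) (ε / 4 / ((m + 1) * (‖f‖ + 1))) * m ≤ 1 / (m + 1) * (m + 1) := by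
            gcongr
            · exact min_le_left _ _
            · linarith
        _ = 1 := by field_simp
    · calc min (1 / (m + 1)) (ε / 4 / ((m + 1) * (‖f‖ + 1))) * m * ‖f‖
          ≤ ε / 4 / ((m + 1) * (‖f‖ + 1)) * (m + 1) * (‖f‖ + 1) := by
            gcongr
            · exact min_le_right _ _
            · linarith
            · linarith
        _ = ε / 4 := by field_simp
  obtain ⟨φ, hφ, hφd⟩ := trig_dense gc η hη
  have hd : ‖opK μ p hp (φ - gc)‖ ≤ η * m := by
    refine (norm_opK_le μ p hp _).trans ?_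
    have : ∫ a, ‖(φ - gc) a‖ ∂μ ≤ ∫ a, η ∂μ := by
      apply integral_mono_of_nonneg
      · exact Eventually.of_forall fun _ => norm_nonneg _
      · exact integrable_const _
      · exact Eventually.of_forall fun a => ((φ - gc).norm_coe_le_norm a).trans hφd.le
    refine this.trans (le_of_eq ?_)
    rw [integral_const, smul_eq_mul, mul_comm]
  have hsub : opK μ p hp φ = opK μ p hp gc + opK μ p hp (φ - gc) := by
    rw [← opK_add]
    congr 1
    abel
  refine ⟨φ, hφ, ?_, ?_⟩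
  · rw [hsub]
    refine (norm_add_le _ _).trans ?_
    have h2 : ‖opK μ p hp gc‖ ≤ 1 := (norm_opK_le μ p hp gc).trans hgint.le
    linarith
  · have h3 : opK μ p hp φ f - f = (opK μ p hp gc f - f) + opK μ p hp (φ - gc) f := by
      rw [hsub, add_apply]
      abel
    rw [h3]
    have h4 : ‖opK μ p hp (φ - gc) f‖ ≤ η * m * ‖f‖ :=
      (ContinuousLinearMap.le_opNorm _ _).trans (by gcongr)
    calc ‖(opK μ p hp gc f - f) + opK μ p hp (φ - gc) f‖
        ≤ ‖opK μ p hp gc f - f‖ + ‖opK μ p hp (φ - gc) f‖ := norm_add_le _ _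
      _ ≤ ε / 4 + ε / 4 := add_le_add h1 (h4.trans hη2)
      _ < ε := by linarith

/-- multipliers commute -/
theorem mult_comm (hp : p ≠ ⊤) {S T : Lp ℂ p μ →L[ℂ] Lp ℂ p μ} (hS : S ∈ multAlg μ p)
    (hT : T ∈ multAlg μ p) : S * T = T * S := by
  have key : ∀ φ ∈ Submodule.span ℂ (Set.range (chi (G := G))),
      S * T * opK μ p hp φ = T * S * opK μ p hp φ := by
    intro φ hφ
    refine Submodule.span_induction (p := fun φ _ => S * T * opK μ p hp φ = T * S * opK μ p hp φ)
      ?_ ?_ ?_ ?_ hφ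
    · rintro _ ⟨χ, rfl⟩
      have e : opK μ p hp (chi χ) = PK μ p hp χ⁻¹ := by
        unfold PK
        rw [chi_inv, star_star]
      rw [e]
      obtain ⟨s, hs⟩ := exists_symbol μ p hp hS χ⁻¹
      obtain ⟨t, ht⟩ := exists_symbol μ p hp hT χ⁻¹
      rw [mul_assoc, ht, mul_smul_comm, hs, mul_assoc, hs, mul_smul_comm, ht, smul_comm]
    · have : opK μ p hp (0 : C(G, ℂ)) = 0 := by
        have := opK_smul μ p hp (0 : ℂ) (0 : C(G, ℂ))
        simpa using this
      rw [this, mul_zero, mul_zero]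
    · intro x y _ _ hx hy
      rw [opK_add, mul_add, mul_add, hx, hy]
    · intro c x _ hx
      rw [opK_smul, mul_smul_comm, mul_smul_comm, hx]
  ext1 f
  by_contra hne
  have hpos : 0 < ‖(S * T - T * S) f‖ := by
    rw [norm_pos_iff]
    intro h
    apply hne
    have : (S * T) f - (T * S) f = 0 := h
    exact sub_eq_zero.1 this
  obtain ⟨φ, hφ, -, hφ2⟩ := exists_kernel μ p hp f
    (‖(S * T - T * S) f‖ / (‖S * T - T * S‖ + 1)) (by positivity)
  have h0 : (S * T - T * S) (opK μ p hp φ f) = 0 := by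
    have h1 := congrArg (fun L => L f) (key φ hφ)
    show (S * T) (opK μ p hp φ f) - (T * S) (opK μ p hp φ f) = 0
    exact sub_eq_zero.2 h1
  have h2 : ‖(S * T - T * S) f‖ < ‖(S * T - T * S) f‖ := by
    calc ‖(S * T - T * S) f‖ = ‖(S * T - T * S) (opK μ p hp φ f - f)‖ := by
          rw [map_sub, h0, zero_sub, norm_neg]
      _ ≤ ‖S * T - T * S‖ * ‖opK μ p hp φ f - f‖ := ContinuousLinearMap.le_opNorm _ _
      _ ≤ (‖S * T - T * S‖ + 1) * ‖opK μ p hp φ f - f‖ := by gcongr; linarith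
      _ < (‖S * T - T * S‖ + 1) *
          (‖(S * T - T * S) f‖ / (‖S * T - T * S‖ + 1)) := by gcongr
      _ = ‖(S * T - T * S) f‖ := by field_simp
  exact lt_irrefl _ h2

/-- a multiplier `T` with `‖T S‖ ≥ c ‖S‖` for all multipliers `S` is invertible -/
theorem isUnit_of_bound (hp : p ≠ ⊤) (T : multAlg μ p) (c : ℝ) (hc : 0 < c)
    (h : ∀ S : multAlg μ p, c * ‖S‖ ≤ ‖T * S‖) : IsUnit T := by
  obtain ⟨T, hT⟩ := T
  have hsym : ∀ χ : ContinuousMonoidHom G Circle, ∃ t : ℂ, t ≠ 0 ∧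
      T * PK μ p hp χ = t • PK μ p hp χ := by
    intro χ
    obtain ⟨t, ht⟩ := exists_symbol μ p hp hT χ
    refine ⟨t, ?_, ht⟩
    rintro rfl
    have h1 := h ⟨PK μ p hp χ, opK_mem μ p hp _⟩
    have h2 : ‖(⟨T, hT⟩ : multAlg μ p) * ⟨PK μ p hp χ, opK_mem μ p hp _⟩‖ = 0 := by
      show ‖T * PK μ p hp χ‖ = 0
      rw [ht, zero_smul, norm_zero]
    rw [h2] at h1
    have h3 : 0 < ‖PK μ p hp χ‖ := norm_pos_iff.2 (PK_ne μ p hp χ)
    have h4 : c * ‖PK μ p hp χ‖ ≤ 0 := h1
    nlinarith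
  have hsol : ∀ φ ∈ Submodule.span ℂ (Set.range (chi (G := G))),
      ∃ S ∈ multAlg μ p, T * S = opK μ p hp φ := by
    intro φ hφ
    refine Submodule.span_induction (p := fun φ _ => ∃ S ∈ multAlg μ p, T * S = opK μ p hp φ)
      ?_ ?_ ?_ ?_ hφ
    · rintro _ ⟨χ, rfl⟩
      have e : opK μ p hp (chi χ) = PK μ p hp χ⁻¹ := by
        unfold PK
        rw [chi_inv, star_star]
      rw [e]
      obtain ⟨t, ht0, ht⟩ := hsym χ⁻¹
      refine ⟨t⁻¹ • PK μ p hp χ⁻¹, Subalgebra.smul_mem _ (opK_mem μ p hp _) _, ?_⟩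
      rw [mul_smul_comm, ht, smul_smul, inv_mul_cancel₀ ht0, one_smul]
    · have : opK μ p hp (0 : C(G, ℂ)) = 0 := by
        have := opK_smul μ p hp (0 : ℂ) (0 : C(G, ℂ))
        simpa using this
      exact ⟨0, Subalgebra.zero_mem _, by rw [this, mul_zero]⟩
    · rintro x y _ _ ⟨S1, h1, e1⟩ ⟨S2, h2, e2⟩
      exact ⟨S1 + S2, Subalgebra.add_mem _ h1 h2, by rw [mul_add, e1, e2, opK_add]⟩
    · rintro a x _ ⟨S, h1, e1⟩
      exact ⟨a • S, Subalgebra.smul_mem _ h1 _, by rw [mul_smul_comm, e1, opK_smul]⟩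
  have hbelow : ∀ f : Lp ℂ p μ, ‖f‖ ≤ 2 / c * ‖T f‖ := by
    intro f
    refine le_of_forall_pos_le_add fun ε hε => ?_
    obtain ⟨φ, hφ, hφ1, hφ2⟩ := exists_kernel μ p hp f ε hε
    obtain ⟨S, hS, hTS⟩ := hsol φ hφ
    have hn : ‖S‖ ≤ 2 / c := by
      have h1 : c * ‖S‖ ≤ ‖T * S‖ := h ⟨S, hS⟩
      rw [hTS] at h1
      rw [le_div_iff₀ hc]
      linarith
    have hST : S * T = opK μ p hp φ := by
      rw [mult_comm μ p hp hS hT, hTS]
    have h2 : opK μ p hp φ f = S (T f) := by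
      rw [← hST]
      rfl
    calc ‖f‖ = ‖opK μ p hp φ f - (opK μ p hp φ f - f)‖ := by congr 1; abel
      _ ≤ ‖opK μ p hp φ f‖ + ‖opK μ p hp φ f - f‖ := norm_sub_le _ _
      _ ≤ 2 / c * ‖T f‖ + ε := by
          refine add_le_add ?_ hφ2.le
          rw [h2]
          exact (ContinuousLinearMap.le_opNorm _ _).trans (by gcongr)
  have hanti : AntilipschitzWith (Real.toNNReal (2 / c)) T := by
    apply ContinuousLinearMap.antilipschitz_of_bound
    intro x
    rw [Real.coe_toNNReal _ (by positivity)]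
    exact hbelow x
  have hclosed : IsClosed (Set.range T) := hanti.isClosed_range T.uniformContinuous
  have hdense : ∀ f : Lp ℂ p μ, f ∈ closure (Set.range T) := by
    intro f
    rw [Metric.mem_closure_iff]
    intro ε hε
    obtain ⟨φ, hφ, -, hφ2⟩ := exists_kernel μ p hp f ε hε
    obtain ⟨S, hS, hTS⟩ := hsol φ hφ
    refine ⟨opK μ p hp φ f, ⟨S f, ?_⟩, ?_⟩
    · rw [← hTS]
      rfl
    · rw [dist_comm, dist_eq_norm]
      exact hφ2
  have hsurj : Function.Surjective T := by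
    intro f
    have := hdense f
    rw [hclosed.closure_eq] at this
    exact this
  have hinj : Function.Injective T := hanti.injective
  let e := ContinuousLinearEquiv.ofBijective T (LinearMap.ker_eq_bot.2 hinj)
    (LinearMap.range_eq_top.2 hsurj)
  have he : ∀ f, e f = T f := fun f => rfl
  have hmem : (e.symm : Lp ℂ p μ →L[ℂ] Lp ℂ p μ) ∈ multAlg μ p := by
    rw [mem_multAlg]
    intro a f
    apply hinj
    have h1 : T (e.symm (trans μ p a f)) = trans μ p a f := by
      rw [← he, ContinuousLinearEquiv.apply_symm_apply]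
    have h2 : T (trans μ p a (e.symm f)) = trans μ p a f := by
      rw [(mem_multAlg μ p).1 hT, ← he, ContinuousLinearEquiv.apply_symm_apply]
    exact h1.trans h2.symm
  refine ⟨⟨⟨T, hT⟩, ⟨(e.symm : Lp ℂ p μ →L[ℂ] Lp ℂ p μ), hmem⟩, ?_, ?_⟩, rfl⟩
  · apply Subtype.ext
    ext1 f
    exact e.apply_symm_apply f
  · apply Subtype.ext
    ext1 f
    exact e.symm_apply_apply f

end Pool.Agent.H208R3.LP
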